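import Mathlib
import Pool.Agent.Dom84.Tiling

set_option autoImplicit false

namespace Pool.Agent.Results.MP_84cfc0_co.IntrusionSquares

open Pool.Agent.Dom84 Matrix

theorem det_MM_zero (n m : ℕ) (h : n < m) (hm : m ≤ 2*n) : (MM n m).det = 0 := by
  classical
  rw [det_apply]
  apply Finset.sum_eq_zero
  intro σ _
  have hex : ∃ j : Fin n, pos n (σ (Sum.inr j)) < m := by
    by_contra hc
    push Not at hc
    have hinj : Function.Injective (fun j : Fin n => pos n (σ (Sum.inr j))) := by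
      intro a b hab
      have h1 := σ.injective (pos_inj n _ _ hab)
      exact Sum.inr_injective h1
    have hsub : (Finset.univ.image (fun j : Fin n => pos n (σ (Sum.inr j)))) ⊆ Finset.Ico m (2*n) := by
      intro x hx
      rw [Finset.mem_image] at hx
      obtain ⟨j, _, rfl⟩ := hx
      rw [Finset.mem_Ico]
      exact ⟨hc j, pos_lt n _⟩
    have h2 := Finset.card_le_card hsub
    rw [Finset.card_image_of_injective _ hinj, Finset.card_univ, Fintype.card_fin, Nat.card_Ico] at h2
    omega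
  obtain ⟨j, hj⟩ := hex
  have h0 : ∏ i, MM n m (σ i) i = 0 := by
    apply Finset.prod_eq_zero (Finset.mem_univ (Sum.inr j))
    simp only [MM, of_apply, Sum.elim_inr]
    rw [if_neg (not_le.2 hj)]
  rw [h0, smul_zero]

/-- The number of domino tilings of the `2n × 2n` square with the intrusion of length `m` removed. -/
theorem result :
    ∀ n m : ℕ, 1 ≤ n → m ≤ 2 * n - 1 →
      ∀ R : Set (ℕ × ℕ),
        R = {p : ℕ × ℕ | p.1 < 2 * n ∧ p.2 < 2 * n ∧
              ¬ ∃ i : ℕ, i < m ∧ p.1 = i ∧ (p.2 = i ∨ p.2 = i + 1)} →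
        ∀ T : ℕ,
          T = Nat.card {f : R → R // ∀ x : R, f (f x) = x ∧
            ((x.1.1 = (f x).1.1 ∧ (x.1.2 + 1 = (f x).1.2 ∨ (f x).1.2 + 1 = x.1.2)) ∨
             (x.1.2 = (f x).1.2 ∧ (x.1.1 + 1 = (f x).1.1 ∨ (f x).1.1 + 1 = x.1.1)))} →
          (∃ k : ℕ, T = k ^ 2 ∨ T = 2 * k ^ 2) ∧
          (m ≤ n → ∃ k : ℕ, Odd k ∧ T = 2 ^ (n - m) * k ^ 2) ∧
          (n < m → T = 0) := by
  intro n m hn hm R hR T hT
  subst hR
  have hT' : T = Nat.card (Til n m) := hT
  refine ⟨?_, ?_, ?_⟩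
  · rw [hT']; exact intrusion_all n m (by omega)
  · intro h; rw [hT']; exact intrusion n m hn h
  · intro h
    have h1 := til_count n m (by omega)
    rw [det_MM_zero n m h (by omega), abs_zero, ← hT'] at h1
    exact_mod_cast h1

end Pool.Agent.Results.MP_84cfc0_co.IntrusionSquares
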